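import Pool.Graph.R_seed8.H591R2.Ternary

/-!
# Three squares for `m` congruent to `1` or `2` modulo `4`
-/

namespace Pool.Agent.H87

open Pool.Agent.H591R2 Pool.Agent.H591R2.St NumberTheorySymbols

/-- From two congruences to a sum of three squares. -/
theorem three_of_aux {m a b c k l : ℤ} (hm : 0 < m) (ha : 0 < a) (h1 : b ^ 2 + m = a * c)
    (h2 : a * k ^ 2 + 1 = m * l) : ∃ x y z : ℤ, x ^ 2 + y ^ 2 + z ^ 2 = m := by
  have e : a * c - b ^ 2 = m := by linarith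
  have hg : Good m (max a (max c l)) (⟨a, b, 0, c, k, l, 0, 0, 1⟩ : St) := by
    refine ⟨ha, ?_, ?_, ?_, le_max_left _ _, (le_max_left _ _).trans (le_max_right _ _),
      (le_max_right _ _).trans (le_max_right _ _)⟩
    · simp only [D2]
      rw [e]
      exact hm
    · simp only [det]
      have : a * c * l + 2 * b * 0 * k - a * k ^ 2 - b ^ 2 * l - 0 ^ 2 * c
        = (a * c - b ^ 2) * l - a * k ^ 2 := by ring
      rw [this, e]
      linarith
    · simp only [Q]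
      linarith
  exact exists_sq hg

theorem root_of_jacobi {m q : ℕ} (hq : q.Prime) (h : J(-(m : ℤ) | q) = 1) :
    ∃ b : ℤ, (q : ℤ) ∣ b ^ 2 + m := by
  have : Fact q.Prime := ⟨hq⟩
  obtain ⟨r, hr⟩ := ZMod.isSquare_of_jacobiSym_eq_one h
  refine ⟨r.val, ?_⟩
  rw [← ZMod.intCast_zmod_eq_zero_iff_dvd]
  push_cast
  rw [ZMod.natCast_zmod_val]
  push_cast at hr
  linear_combination -hr

theorem chi8_one {q : ℕ} (h : q % 8 = 1) : ZMod.χ₈ (q : ZMod 8) = 1 := by
  have : (q : ZMod 8) = 1 := by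
    have h1 : ((q % 8 : ℕ) : ZMod 8) = q := by simp
    rw [← h1, h]; rfl
  rw [this]; decide

theorem chi8_five {q : ℕ} (h : q % 8 = 5) : ZMod.χ₈ (q : ZMod 8) = -1 := by
  have : (q : ZMod 8) = 5 := by
    have h1 : ((q % 8 : ℕ) : ZMod 8) = q := by simp
    rw [← h1, h]; rfl
  rw [this]; decide

theorem three_squares_two {m : ℕ} (hm : m % 4 = 2) : ∃ x y z : ℤ, x ^ 2 + y ^ 2 + z ^ 2 = m := by
  obtain ⟨m1, rfl⟩ : ∃ m1, m = 2 * m1 := ⟨m / 2, by omega⟩
  have hodd : Odd m1 := Nat.odd_iff.2 (by omega)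
  have hpos : 0 < m1 := by omega
  -- the class modulo 8
  set r : ℕ := if m1 % 4 = 1 then 1 else 5 with hr
  have hr' : (m1 % 4 = 1 ∧ r = 1) ∨ (m1 % 4 = 3 ∧ r = 5) := by
    rw [hr]
    split_ifs with h
    · exact Or.inl ⟨h, rfl⟩
    · exact Or.inr ⟨by omega, rfl⟩
  have hco : Nat.Coprime m1 8 := by
    have : Nat.Coprime m1 2 := Nat.coprime_two_right.2 hodd
    exact Nat.Coprime.pow_right 3 this
  obtain ⟨k, hk1, hk2⟩ := Nat.chineseRemainder hco (m1 - 1) r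
  have hkc : k.Coprime (m1 * 8) := by
    apply Nat.Coprime.mul_right
    · have : (m1 - 1).Coprime m1 := by
        have h : Nat.gcd (m1 - 1) m1 ∣ 1 := by
          have h1 : Nat.gcd (m1 - 1) m1 ∣ m1 - 1 := Nat.gcd_dvd_left _ _
          have h2 : Nat.gcd (m1 - 1) m1 ∣ m1 := Nat.gcd_dvd_right _ _
          have h3 : m1 - 1 + 1 = m1 := by omega
          exact (Nat.dvd_add_right h1).1 (by rw [h3]; exact h2)
        exact Nat.dvd_one.1 h
      have h2 := Nat.ModEq.gcd_eq hk1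
      rw [Nat.coprime_iff_gcd_eq_one, h2]
      exact this
    · have h3 : k % 2 = 1 := by
        have h4 : k % 8 = r % 8 := hk2
        rcases hr' with ⟨_, h⟩ | ⟨_, h⟩ <;> rw [h] at h4 <;> omega
      exact Nat.Coprime.pow_right 3 (Nat.coprime_two_right.2 (Nat.odd_iff.2 h3))
  obtain ⟨q, hqgt, hq, hqk⟩ := Nat.forall_exists_prime_gt_and_modEq (2 * m1 + 8) (q := m1 * 8) (a := k)
    (by omega) hkc
  have hq1 : q ≡ m1 - 1 [MOD m1] := (Nat.ModEq.of_mul_right 8 hqk).trans hk1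
  have hq2 : q ≡ r [MOD 8] := (Nat.ModEq.of_mul_left m1 hqk).trans hk2
  have hq8 : q % 8 = r % 8 := hq2
  have hdvd1 : m1 ∣ q + 1 := by
    have := Nat.ModEq.add_right 1 hq1
    have e : m1 - 1 + 1 = m1 := by omega
    rw [e] at this
    exact (Nat.modEq_zero_iff_dvd).1 (this.trans (by simp [Nat.ModEq]))
  have hqodd : Odd q := hq.odd_of_ne_two (by omega)
  have hq4 : q % 4 = 1 := by
    rcases hr' with ⟨_, h⟩ | ⟨_, h⟩ <;> rw [h] at hq8 <;> omega
  have hdvd : 2 * m1 ∣ q + 1 := by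
    apply Nat.Coprime.mul_dvd_of_dvd_of_dvd (Nat.coprime_two_left.2 hodd) _ hdvd1
    have := Nat.odd_iff.1 hqodd
    omega
  -- the symbol
  have hJ : J(-((2 * m1 : ℕ) : ℤ) | q) = 1 := by
    rw [jacobiSym.neg _ hqodd, ZMod.χ₄_nat_one_mod_four hq4, one_mul]
    push_cast
    rw [jacobiSym.mul_left, jacobiSym.at_two hqodd,
      ← jacobiSym.quadratic_reciprocity_one_mod_four hq4 hodd]
    have h5 : J((q : ℤ) | m1) = J(-1 | m1) := by
      apply jacobiSym.mod_left'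
      apply Int.emod_eq_emod_iff_emod_sub_eq_zero.2
      apply Int.emod_eq_zero_of_dvd
      have : (q : ℤ) - -1 = ((q + 1 : ℕ) : ℤ) := by push_cast; ring
      rw [this]
      exact_mod_cast hdvd1
    rw [h5, jacobiSym.at_neg_one hodd]
    rcases hr' with ⟨h, h'⟩ | ⟨h, h'⟩
    · rw [chi8_one (by rw [hq8, h']), ZMod.χ₄_nat_one_mod_four h]; norm_num
    · rw [chi8_five (by rw [hq8, h']), ZMod.χ₄_nat_three_mod_four h]; norm_num
  obtain ⟨b, c, hc⟩ := root_of_jacobi hq hJ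
  obtain ⟨l, hl⟩ := hdvd
  refine three_of_aux (a := q) (b := b) (c := c) (k := 1) (l := l) (by positivity)
    (by exact_mod_cast hq.pos) hc ?_
  have : ((q + 1 : ℕ) : ℤ) = ((2 * m1 * l : ℕ) : ℤ) := by rw [hl]
  push_cast at this ⊢
  linarith

theorem three_squares_one {m : ℕ} (hm : m % 4 = 1) : ∃ x y z : ℤ, x ^ 2 + y ^ 2 + z ^ 2 = m := by
  have hodd : Odd m := Nat.odd_iff.2 (by omega)
  have hpos : 0 < m := by omega
  set r : ℕ := if m % 8 = 1 then 1 else 3 with hr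
  have hr' : (m % 8 = 1 ∧ r = 1) ∨ (m % 8 = 5 ∧ r = 3) := by
    rw [hr]
    split_ifs with h
    · exact Or.inl ⟨h, rfl⟩
    · exact Or.inr ⟨by omega, rfl⟩
  have hco : Nat.Coprime m 4 := by
    have : Nat.Coprime m 2 := Nat.coprime_two_right.2 hodd
    exact Nat.Coprime.pow_right 2 this
  obtain ⟨k, hk1, hk2⟩ := Nat.chineseRemainder hco ((m - 1) / 2) r
  have h2m : 2 * ((m - 1) / 2) + 1 = m := by omega
  have hcm : ((m - 1) / 2).Coprime m := by
    have h : Nat.gcd ((m - 1) / 2) m ∣ 1 := by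
      have h1 : Nat.gcd ((m - 1) / 2) m ∣ (m - 1) / 2 := Nat.gcd_dvd_left _ _
      have h2 : Nat.gcd ((m - 1) / 2) m ∣ m := Nat.gcd_dvd_right _ _
      have h3 : Nat.gcd ((m - 1) / 2) m ∣ 2 * ((m - 1) / 2) := Dvd.dvd.mul_left h1 2
      exact (Nat.dvd_add_right h3).1 (by rw [h2m]; exact h2)
    exact Nat.dvd_one.1 h
  have hkc : k.Coprime (m * 4) := by
    apply Nat.Coprime.mul_right
    · have h2 := Nat.ModEq.gcd_eq hk1
      rw [Nat.coprime_iff_gcd_eq_one, h2]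
      exact hcm
    · have h3 : k % 2 = 1 := by
        have h4 : k % 4 = r % 4 := hk2
        rcases hr' with ⟨_, h⟩ | ⟨_, h⟩ <;> rw [h] at h4 <;> omega
      exact Nat.Coprime.pow_right 2 (Nat.coprime_two_right.2 (Nat.odd_iff.2 h3))
  obtain ⟨q, hqgt, hq, hqk⟩ := Nat.forall_exists_prime_gt_and_modEq (2 * m + 8) (q := m * 4) (a := k)
    (by omega) hkc
  have hq1 : q ≡ (m - 1) / 2 [MOD m] := (Nat.ModEq.of_mul_right 4 hqk).trans hk1
  have hq2 : q ≡ r [MOD 4] := (Nat.ModEq.of_mul_left m hqk).trans hk2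
  have hq4 : q % 4 = r % 4 := hq2
  have hdvd : m ∣ 2 * q + 1 := by
    have h := Nat.ModEq.add_right 1 (Nat.ModEq.mul_left 2 hq1)
    rw [h2m] at h
    exact (Nat.modEq_zero_iff_dvd).1 (h.trans (by simp [Nat.ModEq]))
  have hqodd : Odd q := hq.odd_of_ne_two (by omega)
  have hcop : Nat.Coprime q m := by
    rw [Nat.Prime.coprime_iff_not_dvd hq]
    intro h
    have := Nat.le_of_dvd hpos h
    omega
  -- the symbol
  have h2q : J((q : ℤ) | m) = J(2 | m) := by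
    have h5 : J(2 * (q : ℤ) | m) = J(-1 | m) := by
      apply jacobiSym.mod_left'
      apply Int.emod_eq_emod_iff_emod_sub_eq_zero.2
      apply Int.emod_eq_zero_of_dvd
      have : 2 * (q : ℤ) - -1 = ((2 * q + 1 : ℕ) : ℤ) := by push_cast; ring
      rw [this]
      exact_mod_cast hdvd
    rw [jacobiSym.mul_left, jacobiSym.at_neg_one hodd, ZMod.χ₄_nat_one_mod_four hm] at h5
    have h6 : (2 : ℤ).gcd m = 1 := by
      rw [← Int.isCoprime_iff_gcd_eq_one]
      exact_mod_cast Nat.isCoprime_iff_coprime.2 (Nat.coprime_two_left.2 hodd)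
    have h7 := jacobiSym.sq_one h6
    calc J((q : ℤ) | m) = J(2 | m) ^ 2 * J((q : ℤ) | m) := by rw [h7, one_mul]
      _ = J(2 | m) * (J(2 | m) * J((q : ℤ) | m)) := by ring
      _ = J(2 | m) := by rw [h5, mul_one]
  have hJ : J(-(m : ℤ) | q) = 1 := by
    rw [jacobiSym.neg _ hqodd, jacobiSym.quadratic_reciprocity_one_mod_four hm hqodd, h2q,
      jacobiSym.at_two hodd]
    rcases hr' with ⟨h, h'⟩ | ⟨h, h'⟩
    · rw [chi8_one h, ZMod.χ₄_nat_one_mod_four (by rw [hq4, h'])]; norm_num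
    · rw [chi8_five h, ZMod.χ₄_nat_three_mod_four (by rw [hq4, h'])]; norm_num
  obtain ⟨b₀, hb₀⟩ := root_of_jacobi hq hJ
  obtain ⟨b, hb, hbodd⟩ : ∃ b : ℤ, (q : ℤ) ∣ b ^ 2 + m ∧ Odd b := by
    rcases Int.even_or_odd b₀ with h | h
    · refine ⟨b₀ + q, ?_, h.add_odd (by exact_mod_cast hqodd)⟩
      have : (b₀ + q) ^ 2 + (m : ℤ) = (b₀ ^ 2 + m) + q * (2 * b₀ + q) := by ring
      rw [this]
      exact dvd_add hb₀ (dvd_mul_right _ _)
    · exact ⟨b₀, hb₀, h⟩
  have h2q : (2 * q : ℤ) ∣ b ^ 2 + m := by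
    apply IsCoprime.mul_dvd _ _ hb
    · rw [← Nat.cast_ofNat, Nat.isCoprime_iff_coprime]
      exact Nat.coprime_two_left.2 hqodd
    · rw [← even_iff_two_dvd]
      exact (hbodd.pow).add_odd (by exact_mod_cast hodd)
  obtain ⟨c, hc⟩ := h2q
  obtain ⟨l, hl⟩ := hdvd
  refine three_of_aux (a := 2 * q) (b := b) (c := c) (k := 1) (l := l) (by exact_mod_cast hpos)
    (by have := hq.pos; positivity) hc ?_
  have : ((2 * q + 1 : ℕ) : ℤ) = ((m * l : ℕ) : ℤ) := by rw [hl]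
  push_cast at this ⊢
  linarith

end Pool.Agent.H87
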